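import Pool.Agent.W394.BQN.Stm

/-!
# Bass-Quillen for iterated affine modifications: base change along the tower
-/

set_option autoImplicit false

open Polynomial

noncomputable section

namespace Pool.Agent.W414.BQN

open BQ Pool.Agent.W394.BQN

theorem tr {V D₀ D Ω : Type} [CommRing V] [IsDomain V] [CommRing D₀] [CommRing D] [CommRing Ω]
    (e : D₀ ≃+* D) (j₀ : V →+* D₀) (j : V →+* D) (hj : ∀ v, e (j₀ v) = j v)
    (ι : D₀[X] →+* Ω) (h : LocRel j₀ ι) :
    LocRel j (ι.comp (Polynomial.mapRingHom (e.symm : D →+* D₀))) ∧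
      ∀ f : V[X], (ι.comp (Polynomial.mapRingHom (e.symm : D →+* D₀))) (f.map j) =
        ι (f.map j₀) := by
  have key : ∀ f : V[X], (f.map j).map (e.symm : D →+* D₀) = f.map j₀ := by
    intro f
    rw [Polynomial.map_map]
    congr 1
    apply RingHom.ext
    intro v
    show e.symm (j v) = j₀ v
    rw [← hj v, RingEquiv.symm_apply_apply]
  have key2 : ∀ f : V[X], (ι.comp (Polynomial.mapRingHom (e.symm : D →+* D₀))) (f.map j) =
      ι (f.map j₀) := by
    intro f
    show ι ((f.map j).map (e.symm : D →+* D₀)) = _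
    rw [key]
  have key3 : ∀ c : D₀[X], (c.map (e : D₀ →+* D)).map (e.symm : D →+* D₀) = c := by
    intro c
    rw [Polynomial.map_map]
    have : (e.symm : D →+* D₀).comp (e : D₀ →+* D) = RingHom.id D₀ := by
      apply RingHom.ext
      intro v
      show e.symm (e v) = v
      exact e.symm_apply_apply v
    rw [this, Polynomial.map_id]
  refine ⟨⟨?_, ?_, ?_⟩, key2⟩
  · rw [RingHom.coe_comp]
    exact h.inj.comp (Polynomial.map_injective _ e.symm.injective)
  · intro f hf
    rw [key2]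
    exact h.unit f hf
  · intro z
    obtain ⟨f, hf, c, hc⟩ := h.frac z
    refine ⟨f, hf, c.map (e : D₀ →+* D), ?_⟩
    rw [key2, hc]
    show ι c = ι ((c.map (e : D₀ →+* D)).map (e.symm : D →+* D₀))
    rw [key3]

theorem t_LG (h : S_ND) : S_LG := by
  intro n
  induction n with
  | zero =>
    intro V D _ _ _ _ j hG
    obtain ⟨k, e, he⟩ := hG
    obtain ⟨ι', h1, h2, -⟩ := locRel_mv (RingHom.id V) (algebraMap V[X] (VV V)) (locRel_base V) k
    have h3 := tr e _ j (fun v => he v) ι' h1
    refine ⟨e.symm.injective.isDomain (e.symm : D →+* MvPolynomial (Fin k) V),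
      MvPolynomial (Fin k) (VV V), inferInstance, inferInstance, _, MvPolynomial.C, h3.1,
      ⟨k, RingEquiv.refl _, fun v => rfl⟩, ?_⟩
    intro f
    rw [h3.2]
    rw [h2]
  | succ n ih =>
    intro V D _ _ _ _ j hG
    obtain ⟨C, iC, j₀, u, e, hG0, hN, he⟩ := hG
    obtain ⟨dC, Ω, iΩ, dΩ, ι, j', hL, hG', hc⟩ := ih V C j₀ hG0
    obtain ⟨ι', h1, h2, -⟩ := locRel_node j₀ u hN.1 ι hL (ι (Polynomial.C u)) rfl
    have hN' := h V C Ω j₀ ι j' hL hc u hN
    have h3 := tr e _ j (fun v => he v) ι' h1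
    haveI dN : IsDomain (Node C u) := Node.isDomain u hN.1
    refine ⟨e.symm.injective.isDomain (e.symm : D →+* Node C u),
      Node Ω (ι (Polynomial.C u)), inferInstance, Node.isDomain _ hN'.1, _,
      (Node.j (ι (Polynomial.C u))).comp j', h3.1,
      ⟨Ω, iΩ, j', ι (Polynomial.C u), RingEquiv.refl _, hG', hN', fun v => rfl⟩, ?_⟩
    intro f
    rw [h3.2, ← Polynomial.map_map, h2, RingHom.comp_apply, hc]

end Pool.Agent.W414.BQN
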